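import Pool.Agent.Helper87.MC.Goals

set_option autoImplicit false

/-! Packet LEMD (MP_d8224a_co). -/

namespace Pool.Agent.Helper65.MC

open Finset Pointwise Pool.Agent.Helper87.MC

open Classical in
/-- a finite law and its expectations -/
theorem law_sum {Ω G : Type} [Fintype G] (Ev : Finset Ω) (W : Ω → G) (c : ℝ) (g : G → ℝ) :
    ∑ v : G, ((Ev.filter (fun ω => W ω = v)).card : ℝ) / c * g v = (∑ ω ∈ Ev, g (W ω)) / c := by
  have h1 : ∀ v : G, ((Ev.filter (fun ω => W ω = v)).card : ℝ) / c * g v =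
      (∑ ω ∈ Ev, if W ω = v then g (W ω) else 0) / c := by
    intro v
    rw [← Finset.sum_filter]
    have : ∑ ω ∈ Ev.filter (fun ω => W ω = v), g (W ω) =
        ∑ ω ∈ Ev.filter (fun ω => W ω = v), g v :=
      Finset.sum_congr rfl fun ω hω => by rw [(Finset.mem_filter.mp hω).2]
    rw [this, Finset.sum_const, nsmul_eq_mul]
    ring
  rw [Finset.sum_congr rfl fun v _ => h1 v, ← Finset.sum_div, Finset.sum_comm]
  congr 1
  refine Finset.sum_congr rfl fun ω _ => ?_
  rw [Finset.sum_ite_eq]
  simp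

open Classical in
theorem lemD (hA : GLemA) : GLemD := by
  intro G _ _ D hDne hD Ω _ S ρ t hρ ht hS
  have hk : (1 : ℝ) ≤ D.card := by exact_mod_cast hDne.card_pos
  have hk0 : (0 : ℝ) < D.card := by linarith
  have hlog : 0 ≤ Real.log D.card := Real.log_nonneg hk
  set Good : Ω → G → Prop := fun ω w => w ≠ 0 ∧ (D.card : ℝ) ≤ t * rr D w ∧
      ∀ x ∈ D, x + w ∉ D → x + w ∈ S ω with hGood
  set Ev : Finset Ω := (univ : Finset Ω).filter (fun ω => ∃ w : G, Good ω w) with hEv
  change (Ev.card : ℝ) ≤ _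
  rcases Finset.eq_empty_or_nonempty Ev with he | hne
  · rw [he, Finset.card_empty, Nat.cast_zero]
    positivity
  have hN : (0 : ℝ) < Fintype.card Ω := by
    obtain ⟨ω, _⟩ := hne
    have : 0 < Fintype.card Ω := Fintype.card_pos_iff.mpr ⟨ω⟩
    exact_mod_cast this
  have hc : 0 < ρ * Fintype.card Ω := mul_pos hρ hN
  set W : Ω → G := fun ω => if h : ∃ w : G, Good ω w then Classical.choose h else 0 with hW
  have hWg : ∀ ω ∈ Ev, Good ω (W ω) := by
    intro ω hω
    have h : ∃ w : G, Good ω w := (Finset.mem_filter.mp hω).2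
    simp only [hW]
    rw [dif_pos h]
    exact Classical.choose_spec h
  set ν : G → ℝ := fun v => ((Ev.filter (fun ω => W ω = v)).card : ℝ) / (ρ * Fintype.card Ω)
    with hν
  have hν0 : ∀ w, 0 ≤ ν w := fun w => by simp only [hν]; positivity
  have hνz : ν 0 = 0 := by
    have : Ev.filter (fun ω => W ω = 0) = ∅ := by
      rw [Finset.filter_eq_empty_iff]
      intro ω hω h0
      exact (hWg ω hω).1 h0
    simp only [hν]
    rw [this]
    simp
  have hcond : ∀ z, z ∉ D → (∑ w : G, (if z - w ∈ D then ν w else 0)) ≤ 1 := by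
    intro z hz
    have h1 : ∀ w : G, (if z - w ∈ D then ν w else 0) =
        ν w * (if z - w ∈ D then 1 else 0) := fun w => by split_ifs <;> simp
    rw [Finset.sum_congr rfl fun w _ => h1 w]
    have h2 := law_sum Ev W (ρ * Fintype.card Ω) (fun w => if z - w ∈ D then 1 else 0)
    simp only [hν]
    rw [h2, div_le_one hc]
    refine le_trans ?_ (hS z hz)
    rw [← Finset.sum_filter, Finset.sum_const, nsmul_eq_mul, mul_one]
    have h3 : (Ev.filter (fun ω => z - W ω ∈ D)).card ≤
        ((univ : Finset Ω).filter (fun ω => z ∈ S ω)).card := by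
      refine Finset.card_le_card fun ω hω => ?_
      rw [Finset.mem_filter] at hω ⊢
      refine ⟨Finset.mem_univ _, ?_⟩
      have h4 := (hWg ω hω.1).2.2 (z - W ω) hω.2 (by rwa [sub_add_cancel])
      rwa [sub_add_cancel] at h4
    exact_mod_cast h3
  have key := hA G ν hν0 hνz D hDne hD hcond univ
  have hM : ∑ w : G, ν w = Ev.card / (ρ * Fintype.card Ω) := by
    have h2 := law_sum Ev W (ρ * Fintype.card Ω) (fun _ => 1)
    simp only [mul_one, Finset.sum_const, nsmul_eq_mul] at h2
    exact h2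
  have hR : Ev.card / (ρ * Fintype.card Ω) / t ≤
      ∑ w : G, ν w * ((rr D w : ℝ) / D.card) := by
    have h2 := law_sum Ev W (ρ * Fintype.card Ω) (fun w => (rr D w : ℝ) / D.card)
    simp only [hν]
    rw [h2, div_right_comm]
    refine div_le_div_of_nonneg_right ?_ hc.le
    have h3 : ∀ ω ∈ Ev, 1 / t ≤ (rr D (W ω) : ℝ) / D.card := by
      intro ω hω
      have h4 := (hWg ω hω).2.1
      rw [div_le_div_iff₀ ht hk0]
      linarith
    have h5 := Finset.sum_le_sum h3
    rw [Finset.sum_const, nsmul_eq_mul] at h5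
    calc (Ev.card : ℝ) / t = Ev.card * (1 / t) := by ring
      _ ≤ _ := h5
  set M : ℝ := Ev.card / (ρ * Fintype.card Ω) with hMdef
  have hMpos : 0 < M := by
    have : 0 < Ev.card := hne.card_pos
    have h1 : (0 : ℝ) < Ev.card := by exact_mod_cast this
    exact div_pos h1 hc
  rw [hM] at key
  have h1 : (M / t) ^ 2 ≤ 4 * M * Real.log D.card := by
    refine le_trans ?_ key
    have : 0 ≤ M / t := (div_pos hMpos ht).le
    exact pow_le_pow_left₀ this hR 2
  have h2 : M ≤ 4 * t ^ 2 * Real.log D.card := by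
    rw [div_pow, div_le_iff₀ (by positivity)] at h1
    have h3 : M * M ≤ M * (4 * t ^ 2 * Real.log D.card) := by nlinarith
    exact le_of_mul_le_mul_left h3 hMpos
  have h3 : (Ev.card : ℝ) = M * (ρ * Fintype.card Ω) := by
    rw [hMdef, div_mul_cancel₀ _ hc.ne']
  rw [h3]
  calc M * (ρ * Fintype.card Ω) ≤ (4 * t ^ 2 * Real.log D.card) * (ρ * Fintype.card Ω) :=
        mul_le_mul_of_nonneg_right h2 hc.le
    _ = _ := by ring

end Pool.Agent.Helper65.MC
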